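import Mathlib

set_option autoImplicit false

namespace Pool.Agent.H.MP_62fa17_nt

open PowerSeries Finset

def ext {n : ℕ} (l : Fin n → ℕ) (i : ℕ) : ℕ := if h : i < n then l ⟨i, h⟩ else 0

def Cf {n : ℕ} (l : Fin n → ℕ) : ℕ := ∏ i : Fin n, (l i).choose (ext l (i + 1))

noncomputable def W : (ℕ → ℚ) → ℕ → ℚ⟦X⟧
  | _, 0 => 0
  | t, m + 1 => C (t 0) * X * (1 + W (fun i => t (i + 1)) m)

lemma ext_cons {m : ℕ} (a : ℕ) (l : Fin m → ℕ) (i : ℕ) :
    ext (Fin.cons a l : Fin (m + 1) → ℕ) (i + 1) = ext l i := by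
  unfold ext
  split_ifs with h1 h2 h2
  · rfl
  · omega
  · omega
  · rfl

lemma Cf_cons {m : ℕ} (a : ℕ) (l : Fin m → ℕ) :
    Cf (Fin.cons a l : Fin (m + 1) → ℕ) = a.choose (ext l 0) * Cf l := by
  simp [Cf, Fin.prod_univ_succ, ext_cons]

lemma sum_cons {R : Type} [AddCommMonoid R] (S : Finset ℕ) (m : ℕ) (F : (Fin (m + 1) → ℕ) → R) :
    ∑ l ∈ Fintype.piFinset fun _ : Fin (m + 1) => S, F l =
      ∑ a ∈ S, ∑ l ∈ Fintype.piFinset fun _ : Fin m => S, F (Fin.cons a l) := by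
  rw [← Finset.sum_product']
  refine Finset.sum_nbij' (fun l => (l 0, Fin.tail l)) (fun p => Fin.cons p.1 p.2) ?_ ?_ ?_ ?_ ?_
  · intro l hl
    simp only [Fintype.mem_piFinset, mem_product] at hl ⊢
    exact ⟨hl 0, fun i => hl _⟩
  · intro p hp
    simp only [Fintype.mem_piFinset, mem_product] at hp ⊢
    exact fun i => Fin.cases hp.1 hp.2 i
  · intro l _
    simp
  · intro p _
    simp
  · intro l _
    simp

lemma core (M m : ℕ) (t : ℕ → ℚ) (a : ℕ) (ha : a ≤ M) :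
    ∑ l ∈ Fintype.piFinset fun _ : Fin m => range (M + 1),
      C ((a.choose (ext l 0) * Cf l : ℕ) * ∏ i : Fin m, t i ^ l i) * (X : ℚ⟦X⟧) ^ (∑ i, l i) =
      (1 + W t m) ^ a := by
  induction m generalizing t a with
  | zero => simp [ext, Cf, W]
  | succ m ih =>
    rw [sum_cons, add_comm 1, add_pow, sum_subset (range_subset_range.mpr (by omega : a + 1 ≤ M + 1))
      (fun b _ hb => by simp [Nat.choose_eq_zero_of_lt (show a < b by simpa using hb)])]
    refine sum_congr rfl fun b hb => ?_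
    rw [W, mul_pow, ← ih (fun i => t (i + 1)) b (by simpa [Nat.lt_succ_iff] using hb), mul_sum,
      sum_mul, sum_mul]
    refine sum_congr rfl fun l _ => ?_
    simp only [Cf_cons, Fin.prod_univ_succ, Fin.sum_univ_succ, Fin.cons_zero, Fin.cons_succ,
      show ext (Fin.cons b l : Fin (m + 1) → ℕ) 0 = b from rfl, Fin.val_zero, Fin.val_succ]
    simp only [Nat.cast_mul, map_mul, map_natCast, map_pow]
    ring

lemma gf (m : ℕ) (t g : ℕ → ℚ) :
    ∑ l ∈ (Fintype.piFinset fun _ : Fin (m + 1) => range (m + 1 + 1)).filter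
      (fun l => Antitone l ∧ ∑ i, l i = m + 1), g (ext l 0) * Cf l * ∏ i : Fin (m + 1), t i ^ l i =
      coeff (m + 1) (∑ a ∈ range (m + 1 + 1), C (g a) * W t (m + 1) ^ a) := by
  have : ∑ a ∈ range (m + 1 + 1), C (g a) * W t (m + 1) ^ a =
      ∑ l ∈ Fintype.piFinset fun _ : Fin (m + 1) => range (m + 1 + 1),
        C (g (ext l 0) * Cf l * ∏ i : Fin (m + 1), t i ^ l i) * (X : ℚ⟦X⟧) ^ (∑ i, l i) := by
    rw [sum_cons]
    refine sum_congr rfl fun b hb => ?_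
    rw [W, mul_pow, ← core (m + 1) m (fun i => t (i + 1)) b
      (by simpa [Nat.lt_succ_iff] using hb), mul_sum, mul_sum]
    refine sum_congr rfl fun l _ => ?_
    simp only [Cf_cons, Fin.prod_univ_succ, Fin.sum_univ_succ, Fin.cons_zero, Fin.cons_succ,
      show ext (Fin.cons b l : Fin (m + 1) → ℕ) 0 = b from rfl, Fin.val_zero, Fin.val_succ]
    simp only [Nat.cast_mul, map_mul, map_natCast, map_pow]
    ring
  rw [this, map_sum, sum_filter]
  refine sum_congr rfl fun l _ => ?_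
  rw [coeff_C_mul, coeff_X_pow]
  by_cases h : Antitone l
  · simp [h, eq_comm]
  · have : Cf l = 0 := by
      rw [Fin.antitone_iff_succ_le] at h
      push Not at h
      obtain ⟨i, hi⟩ := h
      refine prod_eq_zero (mem_univ i.castSucc) (Nat.choose_eq_zero_of_lt ?_)
      rw [ext, dif_pos (by simp)]
      exact hi
    simp [h, this]

noncomputable def P (t : ℕ → ℚ) : ℚ⟦X⟧ := PowerSeries.mk fun j => ∏ i ∈ range j, t i

lemma P_eq (t : ℕ → ℚ) : P t = 1 + C (t 0) * X * P fun i => t (i + 1) := by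
  ext j
  rcases j with _ | j
  · simp [P]
  · simp [P, mul_assoc, coeff_succ_X_mul, coeff_one, prod_range_succ', mul_comm (t 0)]

lemma P_W (m : ℕ) (t : ℕ → ℚ) : X ^ (m + 1) ∣ P t - (1 + W t m) := by
  induction m generalizing t with
  | zero => exact ⟨C (t 0) * P fun i => t (i + 1), by rw [P_eq t, W]; ring⟩
  | succ m ih =>
    obtain ⟨r, hr⟩ := ih fun i => t (i + 1)
    exact ⟨C (t 0) * r, by rw [P_eq t, W]; linear_combination C (t 0) * X * hr⟩

lemma geo (Y : ℚ⟦X⟧) (n : ℕ) : (1 - Y) ^ 2 * ∑ a ∈ range (n + 1), C (1 + a : ℚ) * Y ^ a =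
    1 - Y ^ (n + 1) * (n + 2 - (n + 1) * Y) := by
  induction n with
  | zero => simp; ring
  | succ n ih =>
    rw [sum_range_succ, mul_add, ih]
    simp only [map_add, map_one, map_natCast]
    push_cast
    ring

def tu (i : ℕ) : ℚ := (if i + 1 = 1 then 1 else 2 * (i + 1 : ℚ) - 3) / (i + 1)

def tv (i : ℕ) : ℚ := (2 * (i + 1 : ℚ) - 1) / (i + 1)

lemma two : (2 : ℚ⟦X⟧) = C 2 := (map_ofNat C 2).symm

lemma ode : (1 - 2 * X) * d⁄dX ℚ (P tv) = P tv := by
  ext j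
  rw [sub_mul, one_mul, mul_assoc, two, map_sub, coeff_C_mul]
  rcases j with _ | j
  · simp [P, coeff_derivative, tv]
    norm_num
  · simp only [coeff_succ_X_mul, coeff_derivative, P, coeff_mk, prod_range_succ _ (j + 1), tv]
    push_cast
    field_simp
    ring

lemma Pv : P tv ^ 2 * (1 - 2 * X) = 1 := by
  refine derivative.ext ?_ (by rw [P_eq]; simp)
  have h2 : d⁄dX ℚ (2 : ℚ⟦X⟧) = 0 := by rw [two, derivative_C]
  simp only [pow_two, Derivation.leibniz, map_sub, Derivation.map_one_eq_zero, derivative_X, h2,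
    smul_eq_mul]
  linear_combination 2 * P tv * ode

lemma prod_tu (j : ℕ) : ∏ i ∈ range (j + 1), tu i = (∏ i ∈ range j, tv i) / (j + 1) := by
  induction j with
  | zero => simp [tu]
  | succ j ih =>
    rw [prod_range_succ, ih, prod_range_succ, tu, tv, if_neg (by omega)]
    push_cast
    field_simp
    ring

lemma Pu : 2 - P tu = (1 - 2 * X) * P tv := by
  ext j
  rw [sub_mul, one_mul, mul_assoc, two, map_sub, map_sub, coeff_C_mul]
  rcases j with _ | j
  · simp [P]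
    norm_num
  · simp only [coeff_succ_X_mul, P, coeff_mk, prod_tu, prod_range_succ tv, coeff_C]
    generalize ∏ i ∈ range j, tv i = y
    simp [tv]
    field_simp
    ring

lemma sumU (m : ℕ) :
    coeff (m + 1) (∑ a ∈ range (m + 1 + 1), C (1 + a : ℚ) * W tu (m + 1) ^ a) = 2 ^ (m + 1) := by
  have g := geo (W tu (m + 1)) (m + 1)
  obtain ⟨r, hr⟩ := P_W (m + 1) tu
  have hG : (1 - 2 * X) * (PowerSeries.mk fun k => (2 : ℚ) ^ k) = 1 := by
    ext j
    rw [sub_mul, one_mul, mul_assoc, two, map_sub, coeff_C_mul]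
    rcases j with _ | j
    · simp
    · simp [coeff_succ_X_mul, coeff_one, pow_succ']
  have hS : (2 - P tu) ^ 2 = 1 - 2 * X := by
    rw [Pu]
    linear_combination (1 - 2 * X) * Pv
  generalize ∑ a ∈ range (m + 1 + 1), C (1 + a : ℚ) * W tu (m + 1) ^ a = T at g ⊢
  have h1 : X ^ (m + 1 + 1) ∣ W tu (m + 1) ^ (m + 1 + 1) :=
    pow_dvd_pow_of_dvd ⟨C (tu 0) * (1 + W (fun i => tu (i + 1)) m), by rw [W]; ring⟩ _
  obtain ⟨s, hs⟩ := h1
  rw [hs] at g
  have : X ^ (m + 1 + 1) ∣ T - PowerSeries.mk fun k => (2 : ℚ) ^ k := by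
    generalize (PowerSeries.mk fun k => (2 : ℚ) ^ k) = G at hG
    generalize (X : ℚ⟦X⟧) ^ (m + 1 + 1) = Z at *
    refine ⟨-G * (s * (((m + 1 : ℕ) : ℚ⟦X⟧) + 2 - (((m + 1 : ℕ) : ℚ⟦X⟧) + 1) * W tu (m + 1)) +
      r * T * (3 - P tu - W tu (m + 1))), ?_⟩
    linear_combination G * g - T * hG - G * T * hS - G * T * (3 - P tu - W tu (m + 1)) * hr
  have := X_pow_dvd_iff.mp this (m + 1) (by omega)
  rw [map_sub, coeff_mk, sub_eq_zero] at this
  exact this

lemma sumV (m : ℕ) (hm : 1 ≤ m) : coeff (m + 1) (∑ a ∈ range (m + 1 + 1),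
    C ((-1) ^ (1 + a) * (1 + a) : ℚ) * W tv (m + 1) ^ a) = 0 := by
  have g := geo (-W tv (m + 1)) (m + 1)
  obtain ⟨r, hr⟩ := P_W (m + 1) tv
  have e : ∑ a ∈ range (m + 1 + 1), C ((-1) ^ (1 + a) * (1 + a) : ℚ) * W tv (m + 1) ^ a =
      -∑ a ∈ range (m + 1 + 1), C (1 + a : ℚ) * (-W tv (m + 1)) ^ a := by
    rw [← sum_neg_distrib]
    refine sum_congr rfl fun a _ => ?_
    rw [neg_pow (W tv (m + 1))]
    simp only [map_mul, map_pow, map_neg, map_one]
    ring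
  rw [e, map_neg, neg_eq_zero]
  generalize ∑ a ∈ range (m + 1 + 1), C (1 + a : ℚ) * (-W tv (m + 1)) ^ a = T at g ⊢
  have h1 : X ^ (m + 1 + 1) ∣ (-W tv (m + 1)) ^ (m + 1 + 1) :=
    pow_dvd_pow_of_dvd ⟨-C (tv 0) * (1 + W (fun i => tv (i + 1)) m), by rw [W]; ring⟩ _
  obtain ⟨s, hs⟩ := h1
  rw [hs] at g
  have : X ^ (m + 1 + 1) ∣ T - (1 - 2 * X) := by
    generalize (X : ℚ⟦X⟧) ^ (m + 1 + 1) = Z at *
    refine ⟨(1 - 2 * X) *
      (-s * (((m + 1 : ℕ) : ℚ⟦X⟧) + 2 - (((m + 1 : ℕ) : ℚ⟦X⟧) + 1) * -W tv (m + 1)) +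
      r * T * (P tv + 1 + W tv (m + 1))), ?_⟩
    linear_combination (1 - 2 * X) * g - T * Pv +
      (1 - 2 * X) * T * (P tv + 1 + W tv (m + 1)) * hr
  have := X_pow_dvd_iff.mp this (m + 1) (by omega)
  rw [map_sub, sub_eq_zero, two, map_sub, coeff_C_mul, coeff_one, coeff_X, if_neg (by omega),
    if_neg (by omega)] at this
  simpa using this

end Pool.Agent.H.MP_62fa17_nt
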